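import Pool.Agent.Helper95.PM.Stmts
import Pool.Agent.Helper72.PW.PIN

/-!
# The double commutator of the attraction of one nucleus of a molecule, inner ball

Row `PINM`: the proof of row `PIN` with the regularised potential centred at `a`.
-/

set_option autoImplicit false

namespace Pool.Agent.Helper95.PW

open MeasureTheory Filter

lemma pinM_pdt (a : R3) (f : R3 → ℝ) (i : Fin 3) :
    pd i (fun z => f (z + a)) = fun z => pd i f (z + a) := by
  funext z
  unfold pd
  rw [fderiv_comp_add_right]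

lemma pinM_Dt (a : R3) (g W : R3 → ℝ) :
    pin_D (fun z => g (z + a)) (fun z => W (z + a)) = fun z => pin_D g W (z + a) := by
  funext z
  unfold pin_D
  simp only [pinM_pdt]

lemma pinM_sc {g : R3 → ℝ} {K R : ℝ} (h : Scale g K R) (a : R3) :
    Scale (fun z => g (z + a)) K R := by
  refine ⟨?_, ?_, ?_, ?_, ?_, ?_⟩
  · exact h.sm.comp (contDiff_id.add contDiff_const)
  · exact h.cs.comp_homeomorph (Homeomorph.addRight a)
  · intro i y
    simp only [pinM_pdt]
    exact h.d1 i _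
  · intro i j y
    simp only [pinM_pdt]
    exact h.d2 i j _
  · intro i j l y
    simp only [pinM_pdt]
    exact h.d3 i j l _
  · intro i j l m y
    simp only [pinM_pdt]
    exact h.d4 i j l m _

/-- regularised potential with centre `a` -/
noncomputable def pinM_U (a : R3) (s : ℝ) (y : R3) : ℝ := pin_U s (y - a)

lemma pinM_smU (a : R3) {s : ℝ} (hs : 0 < s) : ContDiff ℝ (⊤ : ℕ∞) (pinM_U a s) :=
  (pin_smU hs).comp (contDiff_id.sub contDiff_const)

lemma pinM_DD (a : R3) (g : R3 → ℝ) (s : ℝ) (y : R3) :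
    pin_D g (pin_D g (pinM_U a s)) y =
      pin_D (fun z => g (z + a)) (pin_D (fun z => g (z + a)) (pin_U s)) (y - a) := by
  have h1 : pin_U s = fun z => pinM_U a s (z + a) := by
    funext z
    simp [pinM_U]
  rw [h1, pinM_Dt, pinM_Dt]
  simp

lemma pinM_out {g : R3 → ℝ} {K R s : ℝ} (a : R3) (hs : 0 < s) (hR : 0 < R) (h : Scale g K R)
    (y : R3) (hy : R ≤ nr (y - a)) :
    |pin_D g (pin_D g (pinM_U a s)) y| ≤ 140 * K ^ 2 / R ^ 2 * (1 / nr (y - a)) := by
  rw [pinM_DD]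
  exact pin_out hs hR (pinM_sc h a) (y - a) hy

lemma pinM_inner {g W : R3 → ℝ} {R : ℝ} {m : Fin 3}
    (h : ∀ y, nr y < R → ∀ i, pd i g y = if i = m then 1 else 0)
    (y : R3) (hy : nr y < R) : pin_D g (pin_D g W) y = pd m (pd m W) y := by
  have hO : IsOpen {z : R3 | nr z < R} := isOpen_lt pin_nrc continuous_const
  have h2 : ∀ z, nr z < R → pin_D g W z = pd m W z := by
    intro z hz
    unfold pin_D
    simp [h z hz]
  have h3 : pin_D g W =ᶠ[nhds y] pd m W := by
    filter_upwards [hO.mem_nhds hy] with x hx using h2 x hx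
  have h4 : pin_D g (pin_D g W) y = pd m (pin_D g W) y := by
    conv_lhs => unfold pin_D
    simp only [h y hy]
    simp only [ite_mul, one_mul, zero_mul, Finset.sum_ite_eq', Finset.mem_univ, if_true]
    rfl
  rw [h4]
  unfold pd at h3 ⊢
  rw [h3.fderiv_eq]

lemma pinM_pt {g : Fin 3 → R3 → ℝ} {K R s : ℝ} (a : R3) (hs : 0 < s) (hR : 0 < R)
    (h : ∀ m, Scale (g m) K R)
    (hg : ∀ m y, nr (y - a) < R → ∀ i, pd i (g m) y = if i = m then 1 else 0) (y : R3) :
    -(∑ m, 1 / 2 * pin_D (g m) (pin_D (g m) (pinM_U a s)) y) ≤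
      210 * K ^ 2 / R ^ 2 * (1 / nr (y - a)) + 1 / 2 * mor s (y - a) := by
  have hm : 0 ≤ mor s (y - a) := by
    rw [pin_mor hs]
    have := pin_fpos (pin_qpos hs (y - a))
    positivity
  have h0 : 0 ≤ nr (y - a) := Real.sqrt_nonneg _
  by_cases hy : nr (y - a) < R
  · have hg1 : ∀ m z, nr z < R → ∀ i, pd i (fun z => g m (z + a)) z = if i = m then 1 else 0 := by
      intro m z hz i
      rw [pinM_pdt]
      exact hg m (z + a) (by simpa using hz) i
    have h1 : ∑ m, 1 / 2 * pin_D (g m) (pin_D (g m) (pinM_U a s)) y =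
        -(1 / 2 * mor s (y - a)) := by
      rw [← Finset.mul_sum, Finset.sum_congr rfl (fun m _ => pinM_DD a (g m) s y),
        Finset.sum_congr rfl (fun m _ => pinM_inner (hg1 m) (y - a) hy), pin_lap hs,
        pin_mor hs]
      ring
    rw [h1, neg_neg]
    have : 0 ≤ 210 * K ^ 2 / R ^ 2 * (1 / nr (y - a)) := by positivity
    linarith
  · push Not at hy
    have h1 : ∀ m, -(1 / 2 * pin_D (g m) (pin_D (g m) (pinM_U a s)) y) ≤
        70 * K ^ 2 / R ^ 2 * (1 / nr (y - a)) := by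
      intro m
      have h2 := pinM_out a hs hR (h m) y hy
      have h3 := neg_abs_le (pin_D (g m) (pin_D (g m) (pinM_U a s)) y)
      have h4 : 70 * K ^ 2 / R ^ 2 * (1 / nr (y - a)) =
        1 / 2 * (140 * K ^ 2 / R ^ 2 * (1 / nr (y - a))) := by ring
      rw [h4]
      linarith
    rw [← Finset.sum_neg_distrib]
    calc _ ≤ ∑ m : Fin 3, 70 * K ^ 2 / R ^ 2 * (1 / nr (y - a)) :=
          Finset.sum_le_sum fun m _ => h1 m
      _ = 210 * K ^ 2 / R ^ 2 * (1 / nr (y - a)) := by simp; ring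
      _ ≤ _ := by linarith

lemma pinM_ae (n : ℕ) (a : R3) : ∀ᵐ x : Cf n, ∀ k, x k - a ≠ 0 := by
  rw [ae_all_iff]
  intro k
  filter_upwards [Measure.ae_eval_ne (μ := fun _ : Fin n => (volume : Measure R3)) k a] with x hx
  exact sub_ne_zero.2 hx

lemma pinM_int (h3 : ST_INTM) {n : ℕ} (a : R3) {v w : Cf n → ℝ} (hv : ContDiff ℝ (⊤ : ℕ∞) v)
    (hvs : HasCompactSupport v) (hw : ContDiff ℝ (⊤ : ℕ∞) w) (hws : HasCompactSupport w) :
    Integrable (fun x : Cf n => (∑ k, 1 / nr (x k - a)) * (v x * w x)) := by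
  have h := (h3 n 1 (fun _ => a) (fun _ => 1) v w hv hvs hw hws).1
  simpa [pot] using h

lemma pinM_lim (h3 : ST_INTM) {n : ℕ} (a : R3) {v w : Cf n → ℝ} (hv : ContDiff ℝ (⊤ : ℕ∞) v)
    (hvs : HasCompactSupport v) (hw : ContDiff ℝ (⊤ : ℕ∞) w) (hws : HasCompactSupport w) :
    Tendsto (fun j : ℕ => ∫ x, pin_S (pinM_U a (1 / ((j : ℝ) + 1))) x * (v x * w x)) atTop
      (nhds (∫ x, (∑ k, 1 / nr (x k - a)) * (v x * w x))) := by
  have hs : ∀ j : ℕ, (0 : ℝ) < 1 / ((j : ℝ) + 1) := fun j => by positivity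
  refine tendsto_integral_of_dominated_convergence
    (fun x => 3 / 2 * |(∑ k, 1 / nr (x k - a)) * (v x * w x)|) (fun j => ?_) ?_ (fun j => ?_) ?_
  · exact (((pin_smS (pinM_smU a (hs j))).continuous).mul
      (hv.continuous.mul hw.continuous)).aestronglyMeasurable
  · exact (pinM_int h3 a hv hvs hw hws).abs.const_mul _
  · filter_upwards [pinM_ae n a] with x hx
    have b1 : 0 ≤ pin_S (pinM_U a (1 / ((j : ℝ) + 1))) x :=
      Finset.sum_nonneg fun k _ => (pin_Ub (hs j) (hx k)).1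
    have b2 : pin_S (pinM_U a (1 / ((j : ℝ) + 1))) x ≤ 3 / 2 * ∑ k, 1 / nr (x k - a) := by
      unfold pin_S
      rw [Finset.mul_sum]
      exact Finset.sum_le_sum fun k _ => (pin_Ub (hs j) (hx k)).2
    have b3 : 0 ≤ ∑ k, 1 / nr (x k - a) := by linarith
    rw [Real.norm_eq_abs, abs_mul, abs_mul (∑ k, 1 / nr (x k - a)), abs_of_nonneg b1,
      abs_of_nonneg b3, ← mul_assoc]
    exact mul_le_mul_of_nonneg_right b2 (abs_nonneg _)
  · filter_upwards [pinM_ae n a] with x hx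
    refine Tendsto.mul_const _ ?_
    unfold pin_S
    exact tendsto_finsetSum _ fun k _ => pin_Ul (hx k)

theorem st_PINM (h1 : ST_PAN) (h2 : ST_STB) (h3 : ST_INTM) (_ : ST_HA3) : ST_PINM := by
  refine ⟨210, by norm_num, ?_⟩
  intro n g K R B a u hsc hR hin hu hB
  have hP := fun m => (h2 n (g m) u (hsc m).sm hu).2.1
  have hPP := fun m => (h2 n (g m) (fun s => Pg (g m) (u s)) (hsc m).sm (hP m)).2.1
  have lim : Tendsto (fun j : ℕ =>
      -(∑ m, ((∑ s, ∫ x, pin_S (pinM_U a (1 / ((j : ℝ) + 1))) x * Pg (g m) (u s) x ^ 2) +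
        ∑ s, ∫ x, pin_S (pinM_U a (1 / ((j : ℝ) + 1))) x *
          (Pg (g m) (Pg (g m) (u s)) x * u s x)))) atTop
      (nhds (-(∑ m, (one (fun y => 1 / nr (y - a)) (fun s => Pg (g m) (u s)) +
        (∑ s, ∫ x, (∑ k, 1 / nr (x k - a)) * (Pg (g m) (Pg (g m) (u s)) x * u s x)))))) := by
    refine Tendsto.neg (tendsto_finsetSum _ fun m _ =>
      Tendsto.add (tendsto_finsetSum _ fun s _ => ?_) (tendsto_finsetSum _ fun s _ => ?_))
    · have := pinM_lim h3 a (hP m s).1 (hP m s).2 (hP m s).1 (hP m s).2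
      simp only [← pow_two] at this
      exact this
    · exact pinM_lim h3 a (hPP m s).1 (hPP m s).2 (hu s).1 (hu s).2
  refine le_of_tendsto' lim fun j => ?_
  have hs0 : (0 : ℝ) < 1 / ((j : ℝ) + 1) := by positivity
  generalize 1 / ((j : ℝ) + 1) = s0 at hs0 ⊢
  have e1 : ∀ m : Fin 3, ((∑ s, ∫ x, pin_S (pinM_U a s0) x * Pg (g m) (u s) x ^ 2) +
        ∑ s, ∫ x, pin_S (pinM_U a s0) x * (Pg (g m) (Pg (g m) (u s)) x * u s x)) =
      ∑ s, 1 / 2 * ∫ x, pin_S (pin_D (g m) (pin_D (g m) (pinM_U a s0))) x * u s x ^ 2 := by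
    intro m
    rw [← Finset.sum_add_distrib]
    exact Finset.sum_congr rfl fun s _ =>
      pin_id h1 h2 (hsc m).sm (pinM_smU a hs0) (hu s).1 (hu s).2
  rw [Finset.sum_congr rfl (fun m _ => e1 m), Finset.sum_comm]
  have e2 : ∀ s, -(∑ m : Fin 3, 1 / 2 * ∫ x, pin_S (pin_D (g m) (pin_D (g m) (pinM_U a s0))) x *
      u s x ^ 2) ≤ 210 * K ^ 2 / R ^ 2 * (∫ x, (∑ k, 1 / nr (x k - a)) * u s x ^ 2) +
        1 / 2 * ∫ x, (∑ k, mor s0 (x k - a)) * u s x ^ 2 := by
    intro s
    have hcu := (hu s).1.continuous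
    have i1 : ∀ m, Integrable (fun x => pin_S (pin_D (g m) (pin_D (g m) (pinM_U a s0))) x *
        u s x ^ 2) := by
      intro m
      have hc := (pin_smS (n := n) (pin_smD (hsc m).sm
        (pin_smD (hsc m).sm (pinM_smU a hs0)))).continuous
      refine (pin_ii (hc.mul hcu) hcu (hu s).2).congr (ae_of_all _ fun x => ?_)
      simp only [Pi.mul_apply]
      ring
    have i2 : Integrable (fun x : Cf n => (∑ k, 1 / nr (x k - a)) * u s x ^ 2) := by
      refine (pinM_int h3 a (hu s).1 (hu s).2 (hu s).1 (hu s).2).congr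
        (ae_of_all _ fun x => ?_)
      simp only
      ring
    have i3 : Integrable (fun x : Cf n => (∑ k, mor s0 (x k - a)) * u s x ^ 2) := by
      have hm : Continuous (fun x : Cf n => ∑ k, mor s0 (x k - a)) := by
        have hm1 : Continuous (mor s0) := by
          have : mor s0 = fun y => 15 / 2 * s0 ^ 4 * pin_f (pin_q s0 y) ^ 7 :=
            funext fun y => pin_mor hs0 y
          rw [this]
          have := (pin_smf hs0).continuous
          fun_prop
        fun_prop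
      refine (pin_ii (hm.mul hcu) hcu (hu s).2).congr (ae_of_all _ fun x => ?_)
      simp only [Pi.mul_apply]
      ring
    have l1 : -(∑ m : Fin 3, 1 / 2 * ∫ x, pin_S (pin_D (g m) (pin_D (g m) (pinM_U a s0))) x *
        u s x ^ 2) = ∫ x, -(∑ m : Fin 3, 1 / 2 *
          (pin_S (pin_D (g m) (pin_D (g m) (pinM_U a s0))) x * u s x ^ 2)) := by
      rw [integral_neg, integral_finsetSum _ (fun m _ => (i1 m).const_mul _)]
      simp only [integral_const_mul]
    have l2 : 210 * K ^ 2 / R ^ 2 * (∫ x, (∑ k, 1 / nr (x k - a)) * u s x ^ 2) +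
        1 / 2 * (∫ x, (∑ k, mor s0 (x k - a)) * u s x ^ 2) =
        ∫ x, (210 * K ^ 2 / R ^ 2 * ((∑ k, 1 / nr (x k - a)) * u s x ^ 2) +
          1 / 2 * ((∑ k, mor s0 (x k - a)) * u s x ^ 2)) := by
      rw [integral_add (i2.const_mul _) (i3.const_mul _), integral_const_mul,
        integral_const_mul]
    rw [l1, l2]
    refine integral_mono (integrable_finsetSum _ fun m _ => (i1 m).const_mul _).neg
      ((i2.const_mul _).add (i3.const_mul _)) (fun x => ?_)
    simp only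
    have hp : ∑ k, -(∑ m, 1 / 2 * pin_D (g m) (pin_D (g m) (pinM_U a s0)) (x k)) ≤
        ∑ k, (210 * K ^ 2 / R ^ 2 * (1 / nr (x k - a)) + 1 / 2 * mor s0 (x k - a)) :=
      Finset.sum_le_sum fun k _ => pinM_pt a hs0 hR hsc hin (x k)
    have q1 : -(∑ m : Fin 3, 1 / 2 *
        (pin_S (pin_D (g m) (pin_D (g m) (pinM_U a s0))) x * u s x ^ 2)) =
        (∑ k, -(∑ m, 1 / 2 * pin_D (g m) (pin_D (g m) (pinM_U a s0)) (x k))) * u s x ^ 2 := by
      unfold pin_S
      rw [Finset.sum_neg_distrib, Finset.sum_comm, neg_mul, Finset.sum_mul]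
      congr 1
      refine Finset.sum_congr rfl fun m _ => ?_
      rw [← Finset.mul_sum]
      ring
    have q2 : 210 * K ^ 2 / R ^ 2 * ((∑ k, 1 / nr (x k - a)) * u s x ^ 2) +
        1 / 2 * ((∑ k, mor s0 (x k - a)) * u s x ^ 2) =
        (∑ k, (210 * K ^ 2 / R ^ 2 * (1 / nr (x k - a)) +
          1 / 2 * mor s0 (x k - a))) * u s x ^ 2 := by
      rw [Finset.sum_add_distrib, ← Finset.mul_sum, ← Finset.mul_sum]
      ring
    rw [q1, q2]
    exact mul_le_mul_of_nonneg_right hp (by positivity)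
  have e3 := hB s0 hs0
  unfold one at e3 ⊢
  rw [← Finset.sum_neg_distrib]
  calc _ ≤ ∑ s, (210 * K ^ 2 / R ^ 2 * (∫ x, (∑ k, 1 / nr (x k - a)) * u s x ^ 2) +
        1 / 2 * ∫ x, (∑ k, mor s0 (x k - a)) * u s x ^ 2) := Finset.sum_le_sum fun s _ => e2 s
    _ = 210 * K ^ 2 / R ^ 2 * (∑ s, ∫ x, (∑ k, 1 / nr (x k - a)) * u s x ^ 2) +
        1 / 2 * ∑ s, ∫ x, (∑ k, mor s0 (x k - a)) * u s x ^ 2 := by
      rw [Finset.sum_add_distrib, ← Finset.mul_sum, ← Finset.mul_sum]
    _ ≤ _ := by linarith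

end Pool.Agent.Helper95.PW
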